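import Mathlib

/-!
# The congruence modulo `p^((k-1) l)` for CM curves (Q2) fails for `p = 2` and CM by `ℤ[√-7]`

Q2: let `k ∈ {4, 6, 8, 10, 14}`, let `C / ℚ` be an elliptic curve with complex multiplication, `j(C) ≠ 0, 1728`, and `p` a
prime of good ordinary reduction such that `j(C)` and `j(C) - 1728` are `p`-adic units; is
`v_p(a_{n p^l} - u^(k-2) a_{n p^(l-1)}) ≥ (k-1) l` for the coefficients of `E_k / (j - j(C))`, where `u` is the unit root of
`X² - a_p(C) X + p`?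

The curve `C : y² + xy = x³ - x² - 37 x - 78` (Cremona label 49a2) has conductor `49` and `j(C) = 255³ = 16581375 = j(√-7)`, it has
complex multiplication by the order `ℤ[√-7]` of discriminant `-28` (classical). The prime `2` is a prime of good ordinary
reduction, `a_2(C) = 1`, and `j(C)`, `j(C) - 1728` are odd. We show that for `k = 4`, `p = 2`, `n = l = 1` the valuation is
`1`, smaller than `(k-1) l = 3`. The reason is that `2` divides the conductor of the order, `C` is not the canonical lift of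
its reduction modulo `2`.
-/

set_option autoImplicit false

namespace Pool.Agent.Results.MP_f38b71_nt.ConductorTwo

/-- The normalised Eisenstein series `E_k = 1 - (2k/B_k) ∑ σ_{k-1}(n) q^n` as a formal power series. -/
noncomputable def E (k : ℕ) : PowerSeries ℚ :=
  PowerSeries.mk fun n => if n = 0 then 1 else -(2 * k / bernoulli k) * (ArithmeticFunction.sigma (k - 1) n : ℕ)

/-- `Δ = (E_4³ - E_6²) / 1728`, as a formal Laurent series -/
noncomputable def Delta : LaurentSeries ℚ := ((E 4 : LaurentSeries ℚ) ^ 3 - (E 6 : LaurentSeries ℚ) ^ 2) / 1728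

/-- `j = E_4³ / Δ = q⁻¹ + 744 + ⋯`, as a formal Laurent series -/
noncomputable def j : LaurentSeries ℚ := (E 4 : LaurentSeries ℚ) ^ 3 / Delta

/-- the coefficient `a_m` of `q^m` in `F_{k,C} = E_k / (j - x)`, `x = j(C)` -/
noncomputable def a (k : ℕ) (x : ℚ) (m : ℕ) : ℚ := ((E k : LaurentSeries ℚ) / (j - HahnSeries.C x)).coeff m

/-- the `j`-invariant `c₄³ / Δ` of a Weierstrass equation with integer coefficients -/
def jInv (W : WeierstrassCurve ℤ) : ℚ := (W.c₄ : ℚ) ^ 3 / (W.Δ : ℚ)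

/-- `a_p(C) = p + 1 - #C(𝔽_p)` for a Weierstrass equation with integer coefficients and `p ∤ Δ`; the points are the
affine solutions modulo `p` and the point at infinity -/
noncomputable def trace (W : WeierstrassCurve ℤ) (p : ℕ) : ℤ :=
  p + 1 - (1 + {P : ZMod p × ZMod p | P.2 ^ 2 + W.a₁ * P.1 * P.2 + W.a₃ * P.2 =
    P.1 ^ 3 + W.a₂ * P.1 ^ 2 + W.a₄ * P.1 + W.a₆}.ncard : ℕ)

/-- the curve `y² + xy = x³ - x² - 37 x - 78` with `j = 255³`, which has complex multiplication by `ℤ[√-7]` -/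
def C49 : WeierstrassCurve ℤ := ⟨1, -1, 0, -37, -78⟩

instance : Fact (Nat.Prime 2) := ⟨Nat.prime_two⟩

lemma b5 : bernoulli' 5 = 0 := bernoulli'_eq_zero_of_odd (by decide) (by norm_num)

lemma b6 : bernoulli' 6 = 1 / 42 := by
  rw [bernoulli'_def]
  simp only [Finset.sum_range_succ, Finset.sum_range_zero, bernoulli'_zero, bernoulli'_one, bernoulli'_two,
    bernoulli'_three, bernoulli'_four, b5]
  norm_num [Nat.choose]

lemma E4c (n : ℕ) : PowerSeries.coeff n (E 4) = if n = 0 then 1 else (240 : ℚ) * (ArithmeticFunction.sigma 3 n : ℕ) := by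
  have hb : bernoulli 4 = -1 / 30 := by
    rw [bernoulli_eq_bernoulli'_of_ne_one (by norm_num), bernoulli'_four]
  rw [E, PowerSeries.coeff_mk, hb]
  split_ifs
  · rfl
  · push_cast
    norm_num

lemma E6c (n : ℕ) : PowerSeries.coeff n (E 6) = if n = 0 then 1 else (-504 : ℚ) * (ArithmeticFunction.sigma 5 n : ℕ) := by
  have hb : bernoulli 6 = 1 / 42 := by
    rw [bernoulli_eq_bernoulli'_of_ne_one (by norm_num), b6]
  rw [E, PowerSeries.coeff_mk, hb]
  split_ifs
  · rfl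
  · push_cast
    norm_num

lemma m0 (f g : PowerSeries ℚ) : PowerSeries.coeff 0 (f * g) = PowerSeries.coeff 0 f * PowerSeries.coeff 0 g := by
  simp

lemma m1 (f g : PowerSeries ℚ) : PowerSeries.coeff 1 (f * g) =
    PowerSeries.coeff 0 f * PowerSeries.coeff 1 g + PowerSeries.coeff 1 f * PowerSeries.coeff 0 g := by
  rw [PowerSeries.coeff_mul, Finset.Nat.antidiagonal_succ]
  simp

lemma m2 (f g : PowerSeries ℚ) : PowerSeries.coeff 2 (f * g) =
    PowerSeries.coeff 0 f * PowerSeries.coeff 2 g + PowerSeries.coeff 1 f * PowerSeries.coeff 1 g +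
      PowerSeries.coeff 2 f * PowerSeries.coeff 0 g := by
  have h : Finset.HasAntidiagonal.antidiagonal (2 : ℕ) = {((0 : ℕ), (2 : ℕ)), (1, 1), (2, 0)} := by decide
  rw [PowerSeries.coeff_mul, h]
  simp [add_assoc]

/-- the power series `Δ` -/
noncomputable def Dl : PowerSeries ℚ := PowerSeries.C (1 / 1728) * (E 4 ^ 3 - E 6 ^ 2)

lemma s32 : ArithmeticFunction.sigma 3 2 = 9 := by rw [ArithmeticFunction.sigma_apply]; decide
lemma s52 : ArithmeticFunction.sigma 5 2 = 33 := by rw [ArithmeticFunction.sigma_apply]; decide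

lemma e40 : PowerSeries.coeff 0 (E 4) = 1 := by rw [E4c]; simp
lemma e41 : PowerSeries.coeff 1 (E 4) = 240 := by rw [E4c]; simp
lemma e42 : PowerSeries.coeff 2 (E 4) = 2160 := by rw [E4c, s32]; norm_num
lemma e60 : PowerSeries.coeff 0 (E 6) = 1 := by rw [E6c]; simp
lemma e61 : PowerSeries.coeff 1 (E 6) = -504 := by rw [E6c]; simp
lemma e62 : PowerSeries.coeff 2 (E 6) = -16632 := by rw [E6c, s52]; norm_num

lemma cu0 : PowerSeries.coeff 0 (E 4 ^ 3) = 1 := by rw [pow_succ, pow_two, m0, m0, e40]; norm_num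
lemma cu1 : PowerSeries.coeff 1 (E 4 ^ 3) = 720 := by rw [pow_succ, pow_two, m1, m1, m0, e40, e41]; norm_num
lemma cu2 : PowerSeries.coeff 2 (E 4 ^ 3) = 179280 := by
  rw [pow_succ, pow_two, m2, m2, m1, m0, e40, e41, e42]; norm_num

lemma sq0 : PowerSeries.coeff 0 (E 6 ^ 2) = 1 := by rw [pow_two, m0, e60]; norm_num
lemma sq1 : PowerSeries.coeff 1 (E 6 ^ 2) = -1008 := by rw [pow_two, m1, e60, e61]; norm_num
lemma sq2 : PowerSeries.coeff 2 (E 6 ^ 2) = 220752 := by rw [pow_two, m2, e60, e61, e62]; norm_num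

lemma d0 : PowerSeries.coeff 0 Dl = 0 := by
  rw [Dl, PowerSeries.coeff_C_mul, map_sub, cu0, sq0]; norm_num
lemma d1 : PowerSeries.coeff 1 Dl = 1 := by
  rw [Dl, PowerSeries.coeff_C_mul, map_sub, cu1, sq1]; norm_num
lemma d2 : PowerSeries.coeff 2 Dl = -24 := by
  rw [Dl, PowerSeries.coeff_C_mul, map_sub, cu2, sq2]; norm_num

/-- `ℚ[[q]] → ℚ((q))` -/
noncomputable def io : PowerSeries ℚ →+* LaurentSeries ℚ := HahnSeries.ofPowerSeries ℤ ℚ

lemma io_inj : Function.Injective io := HahnSeries.ofPowerSeries_injective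

/-- the denominator -/
noncomputable def dn (x : ℚ) : PowerSeries ℚ := E 4 ^ 3 - PowerSeries.C x * Dl

lemma dn0 (x : ℚ) : PowerSeries.coeff 0 (dn x) = 1 := by
  rw [dn, map_sub, PowerSeries.coeff_C_mul, cu0, d0]; norm_num
lemma dn1 (x : ℚ) : PowerSeries.coeff 1 (dn x) = 720 - x := by
  rw [dn, map_sub, PowerSeries.coeff_C_mul, cu1, d1]; ring

lemma F_eq (x : ℚ) : (E 4 : LaurentSeries ℚ) / (j - HahnSeries.C x) = io (E 4 * Dl * (dn x)⁻¹) := by
  have hc : PowerSeries.constantCoeff (dn x) ≠ 0 := by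
    rw [← PowerSeries.coeff_zero_eq_constantCoeff_apply, dn0]; norm_num
  have hdn : io (dn x) ≠ 0 := by
    rw [Ne, map_eq_zero_iff io io_inj]
    intro h
    exact hc (by rw [h, map_zero])
  have hD : io Dl ≠ 0 := by
    rw [Ne, map_eq_zero_iff io io_inj]
    intro h
    have := d1
    rw [h, map_zero] at this
    norm_num at this
  have e4 : (E 4 : LaurentSeries ℚ) = io (E 4) := rfl
  have hC : ∀ y : ℚ, (HahnSeries.C y : LaurentSeries ℚ) = io (PowerSeries.C y) := by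
    intro y
    exact (HahnSeries.ofPowerSeries_C y).symm
  have hDelta : Delta = io Dl := by
    have h1728 : (1728 : LaurentSeries ℚ) * io (PowerSeries.C (1 / 1728)) = 1 := by
      have : (1728 : LaurentSeries ℚ) = io (PowerSeries.C 1728) := by
        rw [map_ofNat, map_ofNat]
      rw [this, ← map_mul, ← map_mul]
      norm_num
    have h0 : (1728 : LaurentSeries ℚ) ≠ 0 := by
      intro h
      rw [h, zero_mul] at h1728
      exact zero_ne_one h1728
    have e6 : (E 6 : LaurentSeries ℚ) = io (E 6) := rfl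
    rw [Delta, Dl, e4, e6, map_mul, map_sub, map_pow, map_pow, div_eq_iff h0]
    linear_combination (-(io (E 4) ^ 3 - io (E 6) ^ 2)) * h1728
  have hj : j - HahnSeries.C x = io (dn x) / io Dl := by
    rw [j, hDelta, e4, hC, dn, map_sub, map_mul, map_pow, eq_div_iff hD, sub_mul, div_mul_cancel₀ _ hD]
  rw [hj, e4]
  have h2 : io (E 4 * Dl * (dn x)⁻¹) * io (dn x) = io (E 4) * io Dl := by
    rw [← map_mul, mul_assoc, PowerSeries.inv_mul_cancel _ hc, mul_one, map_mul]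
  rw [div_div_eq_mul_div, div_eq_iff hdn, h2]

lemma a_eq (x : ℚ) (n : ℕ) : a 4 x n = PowerSeries.coeff n (E 4 * Dl * (dn x)⁻¹) := by
  rw [a, F_eq]
  exact LaurentSeries.coeff_coe_powerSeries _ _

lemma coefs (x : ℚ) : a 4 x 1 = 1 ∧ a 4 x 2 = x - 504 := by
  have hc : PowerSeries.constantCoeff (dn x) ≠ 0 := by
    rw [← PowerSeries.coeff_zero_eq_constantCoeff_apply, dn0]; norm_num
  obtain ⟨G, hG⟩ : ∃ G, G = E 4 * Dl * (dn x)⁻¹ := ⟨_, rfl⟩
  have h : G * dn x = E 4 * Dl := by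
    rw [hG, mul_assoc, PowerSeries.inv_mul_cancel _ hc, mul_one]
  have h0 := congrArg (PowerSeries.coeff 0) h
  rw [m0, m0, dn0, d0, mul_zero, mul_one] at h0
  have h1 := congrArg (PowerSeries.coeff 1) h
  rw [m1, m1, dn0, d0, d1, e40, h0] at h1
  have h2 := congrArg (PowerSeries.coeff 2) h
  rw [m2, m2, dn0, dn1, d0, d1, d2, e40, e41, h0] at h2
  have h1' : PowerSeries.coeff 1 G = 1 := by linarith
  rw [h1'] at h2
  refine ⟨by rw [a_eq, ← hG]; exact h1', ?_⟩
  rw [a_eq, ← hG]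
  linarith

lemma C49_Δ : C49.Δ = 343 := by
  simp only [C49, WeierstrassCurve.Δ, WeierstrassCurve.b₂, WeierstrassCurve.b₄, WeierstrassCurve.b₆,
    WeierstrassCurve.b₈]
  norm_num

lemma C49_c₄ : C49.c₄ = 1785 := by
  simp only [C49, WeierstrassCurve.c₄, WeierstrassCurve.b₂, WeierstrassCurve.b₄]
  norm_num

lemma C49_j : jInv C49 = 255 ^ 3 := by
  rw [jInv, C49_Δ, C49_c₄]
  norm_num

lemma C49_trace : trace C49 2 = 1 := by
  have h : {P : ZMod 2 × ZMod 2 | P.2 ^ 2 + C49.a₁ * P.1 * P.2 + C49.a₃ * P.2 =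
      P.1 ^ 3 + C49.a₂ * P.1 ^ 2 + C49.a₄ * P.1 + C49.a₆}.ncard = 1 := by
    rw [Set.ncard_eq_toFinset_card']
    simp only [C49]
    decide
  rw [trace, h]
  norm_num

lemma val_odd (m : ℕ) (h : ¬ 2 ∣ m) : padicValRat 2 (m : ℚ) = 0 := by
  rw [padicValRat.of_nat, padicValNat.eq_zero_of_not_dvd h]
  rfl

/-- the unit root exists -/
lemma exists_u : ∃ u : ℤ_[2], IsUnit u ∧ u ^ 2 - 1 * u + 2 = 0 := by
  have h8 : ‖(8 : ℤ_[2])‖ < 1 := by
    have : ((8 : ℤ) : ℤ_[2]) = 8 := by norm_cast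
    rw [← this, PadicInt.norm_intCast_lt_one_iff]
    norm_num
  have h5 : ‖(5 : ℤ_[2])‖ = 1 := by
    have : ((5 : ℤ) : ℤ_[2]) = 5 := by norm_cast
    rw [← this, PadicInt.norm_intCast_eq_one_iff, Int.isCoprime_iff_gcd_eq_one]
    norm_num
  have h2 : ‖(2 : ℤ_[2])‖ < 1 := by
    have : ((2 : ℤ) : ℤ_[2]) = 2 := by norm_cast
    rw [← this, PadicInt.norm_intCast_lt_one_iff]
    norm_num
  have hd : (Polynomial.derivative (Polynomial.X ^ 2 - Polynomial.X + 2 : Polynomial ℤ_[2])).aeval (3 : ℤ_[2]) = 5 := by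
    simp only [Polynomial.derivative_X_pow, Polynomial.derivative_X, Polynomial.derivative_ofNat, map_add, map_sub,
      map_mul, map_pow, Polynomial.aeval_X, Polynomial.aeval_C, map_one, add_zero]
    norm_num
  obtain ⟨z, hz, hz2, -⟩ := hensels_lemma (p := 2) (F := (Polynomial.X ^ 2 - Polynomial.X + 2 : Polynomial ℤ_[2])) (a := 3)
    (by
      rw [hd, h5]
      simp only [map_add, map_sub, map_pow, Polynomial.aeval_X, map_ofNat]
      norm_num
      exact h8)
  simp only [map_add, map_sub, map_pow, Polynomial.aeval_X, map_ofNat] at hz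
  rw [hd, h5] at hz2
  refine ⟨z, ?_, by rw [one_mul]; exact hz⟩
  rw [PadicInt.isUnit_iff]
  by_contra hne
  have hlt : ‖z‖ < 1 := lt_of_le_of_ne (PadicInt.norm_le_one z) hne
  have h3 : ‖(3 : ℤ_[2])‖ = 1 := by
    have : ((3 : ℤ) : ℤ_[2]) = 3 := by norm_cast
    rw [← this, PadicInt.norm_intCast_eq_one_iff, Int.isCoprime_iff_gcd_eq_one]
    norm_num
  have h4 : ‖(3 : ℤ_[2])‖ ≤ max ‖z‖ ‖z - 3‖ := by
    have : (3 : ℤ_[2]) = z - (z - 3) := by ring
    conv_lhs => rw [this]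
    rw [sub_eq_add_neg]
    refine (PadicInt.nonarchimedean _ _).trans ?_
    rw [norm_neg]
  rw [h3] at h4
  exact absurd h4 (not_le.2 (max_lt hlt hz2))

/-- For every unit root `u` the `2`-adic absolute value of `a_2 - u² a_1` is larger than `2^(-3)`. -/
lemma big (u : ℤ_[2]) (h : u ^ 2 - 1 * u + 2 = 0) :
    (2 : ℝ) ^ (-(3 : ℕ) : ℤ) < ‖((16580871 : ℤ_[2]) - u ^ 2)‖ := by
  by_contra hcon
  rw [not_lt] at hcon
  have h1 := (PadicInt.norm_le_pow_iff_mem_span_pow (p := 2) _ 3).1 (by exact_mod_cast hcon)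
  rw [← PadicInt.ker_toZModPow, RingHom.mem_ker, map_sub, map_pow, map_ofNat] at h1
  have h2 := congrArg (PadicInt.toZModPow (p := 2) 3) h
  rw [map_add, map_sub, map_mul, map_pow, map_one, map_ofNat, map_zero] at h2
  generalize PadicInt.toZModPow (p := 2) 3 u = v at h1 h2
  have key : ∀ v : ZMod (2 ^ 3), v ^ 2 - 1 * v + 2 = 0 → (16580871 : ZMod (2 ^ 3)) - v ^ 2 ≠ 0 := by decide
  exact key v h2 h1

/-- The curve `C49` has good ordinary reduction at `2`, `j = 255³` and `j - 1728` are `2`-adic units, the unit root of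
`X² - a_2(C) X + 2` exists, and for each unit root `u` the number `a_{n p^l} - u^(k-2) a_{n p^(l-1)}` with `k = 4`, `p = 2`,
`n = l = 1` has `2`-adic valuation less than `(k-1) l = 3` (its absolute value is larger than `2^(-3)`). -/
theorem result :
    jInv C49 = 255 ^ 3 ∧ ¬ (2 : ℤ) ∣ C49.Δ ∧ ¬ (2 : ℤ) ∣ trace C49 2 ∧
    padicValRat 2 (jInv C49) = 0 ∧ padicValRat 2 (jInv C49 - 1728) = 0 ∧
    (∃ u : ℤ_[2], IsUnit u ∧ u ^ 2 - (trace C49 2 : ℤ_[2]) * u + 2 = 0) ∧
    ∀ u : ℤ_[2], IsUnit u → u ^ 2 - (trace C49 2 : ℤ_[2]) * u + 2 = 0 →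
      (2 : ℝ) ^ (-(((4 - 1) * 1 : ℕ) : ℤ)) <
        ‖((a 4 (jInv C49) (1 * 2 ^ 1) : ℚ) : ℚ_[2]) - (u : ℚ_[2]) ^ (4 - 2) * ((a 4 (jInv C49) (1 * 2 ^ 0) : ℚ) : ℚ_[2])‖ := by
  have hj : (255 : ℚ) ^ 3 = ((16581375 : ℕ) : ℚ) := by norm_num
  have hj2 : (255 : ℚ) ^ 3 - 1728 = ((16579647 : ℕ) : ℚ) := by norm_num
  refine ⟨C49_j, by rw [C49_Δ]; norm_num, by rw [C49_trace]; norm_num, ?_, ?_, ?_, ?_⟩
  · rw [C49_j, hj]
    exact val_odd _ (by norm_num)
  · rw [C49_j, hj2]
    exact val_odd _ (by norm_num)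
  · rw [C49_trace, Int.cast_one]
    exact exists_u
  · intro u _ h
    rw [C49_trace, Int.cast_one] at h
    have h1 := big u h
    have e1 : 1 * 2 ^ 1 = 2 := by norm_num
    have e2 : 1 * 2 ^ 0 = 1 := by norm_num
    rw [e1, e2, C49_j, (coefs _).1, (coefs _).2]
    have e3 : (((255 ^ 3 - 504 : ℚ)) : ℚ_[2]) - (u : ℚ_[2]) ^ (4 - 2) * ((1 : ℚ) : ℚ_[2]) =
        ((((16580871 : ℤ_[2]) - u ^ 2) : ℤ_[2]) : ℚ_[2]) := by
      push_cast
      norm_num
      exact (map_ofNat PadicInt.Coe.ringHom 16580871).symm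
    rw [e3, ← PadicInt.norm_def]
    exact_mod_cast h1

end Pool.Agent.Results.MP_f38b71_nt.ConductorTwo
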